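import Mathlib

/-!
# The rigid bipartite and split graphs

The vertices are `x i`, `y i` (`i < m`), `w i` (`i < 2 m + 1`), `z 0`, `z 1` and `v i` (`i < b`), where
`b ≥ 3 m + 2`. The pairs `x i`, `y j` are free. The sides are `{x, z, v}` and `{y, w}`; the first side is
a clique if `c` is true and independent if `c` is false.
-/

set_option autoImplicit false

namespace Pool.Agent.R616.OB

/-- the vertices -/
inductive Vx (m b : ℕ) : Type
  | x (i : Fin m)
  | y (i : Fin m)
  | w (i : Fin (2 * m + 1))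
  | z (i : Fin 2)
  | v (i : Fin b)

variable {m b : ℕ}

/-- the vertices as a sum type -/
def Vx.equiv (m b : ℕ) : Vx m b ≃ Fin m ⊕ (Fin m ⊕ (Fin (2 * m + 1) ⊕ (Fin 2 ⊕ Fin b))) where
  toFun
    | .x i => .inl i
    | .y i => .inr (.inl i)
    | .w i => .inr (.inr (.inl i))
    | .z i => .inr (.inr (.inr (.inl i)))
    | .v i => .inr (.inr (.inr (.inr i)))
  invFun
    | .inl i => .x i
    | .inr (.inl i) => .y i
    | .inr (.inr (.inl i)) => .w i
    | .inr (.inr (.inr (.inl i))) => .z i
    | .inr (.inr (.inr (.inr i))) => .v i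
  left_inv u := by cases u <;> rfl
  right_inv u := by rcases u with i | i | i | i | i <;> rfl

instance : Fintype (Vx m b) := Fintype.ofEquiv _ (Vx.equiv m b).symm

lemma sum_Vx (f : Vx m b → ℕ) : ∑ u, f u = ∑ i, f (.x i) + (∑ i, f (.y i) + (∑ i, f (.w i) +
    (∑ i, f (.z i) + ∑ i, f (.v i)))) := by
  rw [← (Vx.equiv m b).symm.sum_comp]
  simp only [Fintype.sum_sum_type]
  rfl

lemma card_Vx : Fintype.card (Vx m b) = 4 * m + 3 + b := by
  rw [Fintype.card_congr (Vx.equiv m b)]
  simp only [Fintype.card_sum, Fintype.card_fin]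
  ring

/-- adjacency -/
def R (c : Bool) (Z : Finset (Fin m × Fin m)) : Vx m b → Vx m b → Prop
  | .x i, .y j => (i, j) ∈ Z
  | .y j, .x i => (i, j) ∈ Z
  | .x j, .w i => i.1 ≤ j.1
  | .w i, .x j => i.1 ≤ j.1
  | .v _, .w _ => True
  | .w _, .v _ => True
  | .v i, .y j => i.1 ≤ j.1
  | .y j, .v i => i.1 ≤ j.1
  | .x i, .x j => c = true ∧ i ≠ j
  | .x _, .z _ => c = true
  | .z _, .x _ => c = true
  | .x _, .v _ => c = true
  | .v _, .x _ => c = true
  | .z i, .z j => c = true ∧ i ≠ j
  | .z _, .v _ => c = true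
  | .v _, .z _ => c = true
  | .v i, .v j => c = true ∧ i ≠ j
  | .y _, .y _ => False
  | .y _, .w _ => False
  | .w _, .y _ => False
  | .w _, .w _ => False
  | .y _, .z _ => False
  | .z _, .y _ => False
  | .w _, .z _ => False
  | .z _, .w _ => False

/-- the graph -/
def GX (c : Bool) (Z : Finset (Fin m × Fin m)) : SimpleGraph (Vx m b) where
  Adj := R c Z
  symm := ⟨by
    intro p q h
    cases p <;> cases q <;> simp only [R] at h ⊢ <;> first | exact h | exact ⟨h.1, h.2.symm⟩⟩
  loopless := ⟨by intro p h; cases p <;> simp [R] at h⟩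

open Classical in
/-- the number of elements with a property -/
noncomputable def cN {W : Type} [Fintype W] (P : W → Prop) : ℕ := ∑ q, if P q then 1 else 0

/-- the degree -/
noncomputable def dg {W : Type} [Fintype W] (G : SimpleGraph W) (p : W) : ℕ := cN (G.Adj p)

lemma dg_iso {W : Type} [Fintype W] {G H : SimpleGraph W} (e : G ≃g H) (p : W) :
    dg H (e p) = dg G p := by
  classical
  unfold dg cN
  rw [← e.toEquiv.sum_comp]
  refine Finset.sum_congr rfl fun q _ => ?_
  have : H.Adj (e p) (e.toEquiv q) ↔ G.Adj p q := e.map_adj_iff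
  by_cases h : G.Adj p q
  · rw [if_pos h, if_pos (this.mpr h)]
  · rw [if_neg h, if_neg (fun h' => h (this.mp h'))]

lemma cN_Vx (P : Vx m b → Prop) : cN P = cN (fun i => P (.x i)) + (cN (fun i => P (.y i)) +
    (cN (fun i => P (.w i)) + (cN (fun i => P (.z i)) + cN (fun i => P (.v i))))) := by
  unfold cN; exact sum_Vx _

lemma sum_ge (N i : ℕ) : ∑ j ∈ Finset.range N, (if i ≤ j then 1 else 0) = N - i := by
  induction N with
  | zero => simp
  | succ N ih => rw [Finset.sum_range_succ, ih]; split_ifs <;> omega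

lemma sum_le (N j : ℕ) : ∑ i ∈ Finset.range N, (if i ≤ j then 1 else 0) = min N (j + 1) := by
  induction N with
  | zero => simp
  | succ N ih => rw [Finset.sum_range_succ, ih]; split_ifs <;> omega

lemma cN_ge (N i : ℕ) : cN (fun j : Fin N => i ≤ j.1) = N - i := by
  rw [← sum_ge N i, ← Fin.sum_univ_eq_sum_range (fun j => if i ≤ j then 1 else 0)]
  unfold cN
  refine Finset.sum_congr rfl fun j _ => ?_
  congr

lemma cN_le (N j : ℕ) : cN (fun i : Fin N => i.1 ≤ j) = min N (j + 1) := by
  rw [← sum_le N j, ← Fin.sum_univ_eq_sum_range (fun i => if i ≤ j then 1 else 0)]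
  unfold cN
  refine Finset.sum_congr rfl fun j _ => ?_
  congr

lemma cN_true (N : ℕ) : cN (fun _ : Fin N => True) = N := by simp [cN]

lemma cN_false (N : ℕ) : cN (fun _ : Fin N => False) = 0 := by simp [cN]

lemma cN_ne (N : ℕ) (j : Fin N) : cN (fun i : Fin N => j ≠ i) = N - 1 := by
  classical
  have h0 : cN (fun i : Fin N => j ≠ i) = (Finset.univ.filter fun i => j ≠ i).card := by
    rw [Finset.card_filter]
    unfold cN
    refine Finset.sum_congr rfl fun i _ => ?_
    congr
  have : (Finset.univ.filter fun i => j ≠ i) = Finset.univ.erase j := by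
    ext i; simp [eq_comm]
  rw [h0, this, Finset.card_erase_of_mem (Finset.mem_univ _)]
  simp

lemma cN_bound {N : ℕ} (P : Fin N → Prop) : cN P ≤ N := by
  classical
  unfold cN
  rw [← Finset.card_filter]
  simpa using Finset.card_filter_le Finset.univ P

lemma dg_x (c : Bool) (Z : Finset (Fin m × Fin m)) (j : Fin m) :
    ∃ r ≤ m, dg (GX (b := b) c Z) (.x j) =
      (if c then m - 1 + 2 + b else 0) + r + (j.1 + 1) := by
  have hj := j.2
  refine ⟨cN (fun i => (j, i) ∈ Z), cN_bound _, ?_⟩
  have h1 : min (2 * m + 1) (j.1 + 1) = j.1 + 1 := min_eq_right (by omega)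
  cases c
  · simp only [dg, GX, R, cN_Vx, cN_le, h1, Bool.false_eq_true, false_and, cN_false]
    simp
  · simp only [dg, GX, R, cN_Vx, cN_le, h1, true_and, cN_ne, cN_true]
    simp only [if_true]
    ring

lemma dg_y (hb : 3 * m + 2 ≤ b) (c : Bool) (Z : Finset (Fin m × Fin m)) (j : Fin m) :
    ∃ r ≤ m, dg (GX (b := b) c Z) (.y j) = r + (j.1 + 1) := by
  have hj := j.2
  refine ⟨cN (fun i => (i, j) ∈ Z), cN_bound _, ?_⟩
  have h1 : min b (j.1 + 1) = j.1 + 1 := min_eq_right (by omega)
  simp only [dg, GX, R, cN_Vx, cN_le, h1, cN_false]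
  simp

lemma dg_w (c : Bool) (Z : Finset (Fin m × Fin m)) (i : Fin (2 * m + 1)) :
    dg (GX (b := b) c Z) (.w i) = (m - i.1) + b := by
  simp only [dg, GX, R, cN_Vx, cN_ge, cN_false, cN_true]
  simp

lemma dg_z (c : Bool) (Z : Finset (Fin m × Fin m)) (i : Fin 2) :
    dg (GX (b := b) c Z) (.z i) = if c then m + 1 + b else 0 := by
  cases c
  · simp only [dg, GX, R, cN_Vx, Bool.false_eq_true, false_and, cN_false]
    simp
  · simp only [dg, GX, R, cN_Vx, true_and, cN_ne, cN_true, cN_false]
    simp only [if_true]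
    ring

lemma dg_v (c : Bool) (Z : Finset (Fin m × Fin m)) (i : Fin b) :
    dg (GX (b := b) c Z) (.v i) = (if c then m + 2 + (b - 1) else 0) + (m - i.1) + (2 * m + 1) := by
  cases c
  · simp only [dg, GX, R, cN_Vx, cN_ge, Bool.false_eq_true, false_and, cN_false, cN_true]
    simp
  · simp only [dg, GX, R, cN_Vx, true_and, cN_ne, cN_ge, cN_true]
    simp only [if_true]
    ring

section rigid

variable {c : Bool} {Z Z' : Finset (Fin m × Fin m)}

lemma fix_w (hb : 3 * m + 2 ≤ b) (e : GX (b := b) c Z ≃g GX (b := b) c Z') (i : Fin (2 * m + 1))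
    (hi : i.1 < m) : e (.w i) = .w i := by
  have h := dg_iso e (.w i)
  rw [dg_w] at h
  generalize e (.w i) = p at h
  cases p with
  | x j =>
    obtain ⟨r, hr, hd⟩ := dg_x (b := b) c Z' j
    rw [hd] at h
    have := j.2
    cases c <;> simp at h <;> omega
  | y j =>
    obtain ⟨r, hr, hd⟩ := dg_y hb c Z' j
    rw [hd] at h
    have := j.2
    omega
  | w j =>
    rw [dg_w] at h
    have : i = j := Fin.ext (by omega)
    rw [this]
  | z j =>
    rw [dg_z] at h
    cases c <;> simp at h <;> omega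
  | v j =>
    rw [dg_v] at h
    cases c <;> simp at h <;> omega

lemma fix_v (hb : 3 * m + 2 ≤ b) (e : GX (b := b) c Z ≃g GX (b := b) c Z') (i : Fin b)
    (hi : i.1 < m) : e (.v i) = .v i := by
  have h := dg_iso e (.v i)
  rw [dg_v] at h
  generalize e (.v i) = p at h
  cases p with
  | x j =>
    obtain ⟨r, hr, hd⟩ := dg_x (b := b) c Z' j
    rw [hd] at h
    have := j.2
    cases c <;> simp at h <;> omega
  | y j =>
    obtain ⟨r, hr, hd⟩ := dg_y hb c Z' j
    rw [hd] at h
    have := j.2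
    cases c <;> simp at h <;> omega
  | w j =>
    rw [dg_w] at h
    cases c <;> simp at h <;> omega
  | z j =>
    rw [dg_z] at h
    cases c <;> simp at h <;> omega
  | v j =>
    rw [dg_v] at h
    have : i = j := Fin.ext (by omega)
    rw [this]

lemma fix_x (hb : 3 * m + 2 ≤ b) (e : GX (b := b) c Z ≃g GX (b := b) c Z') (j : Fin m) :
    e (.x j) = .x j := by
  have hj := j.2
  have h := dg_iso e (.x j)
  obtain ⟨r, hr, hd⟩ := dg_x (b := b) c Z j
  rw [hd] at h
  have hw : ∀ i : Fin (2 * m + 1), i.1 < m →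
      ((GX (b := b) c Z').Adj (e (.x j)) (.w i) ↔ i.1 ≤ j.1) := by
    intro i hi
    have := e.map_adj_iff (v := .x j) (w := .w i)
    rw [fix_w hb e i hi] at this
    rw [this]; rfl
  have h0 := (hw ⟨0, by omega⟩ (by simp; omega)).mpr (by simp)
  generalize e (.x j) = p at h hw h0
  cases p with
  | x j' =>
    have h1 := hw ⟨j.1, by omega⟩ hj
    have h2 := hw ⟨j'.1, by omega⟩ j'.2
    simp only [GX, R] at h1 h2
    have : j = j' := Fin.ext (by omega)
    rw [this]
  | y j' => simp [GX, R] at h0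
  | w j' => simp [GX, R] at h0
  | z j' => simp [GX, R] at h0
  | v j' =>
    rw [dg_v] at h
    have := j'.2
    cases c <;> simp at h <;> omega

lemma fix_y (hb : 3 * m + 2 ≤ b) (e : GX (b := b) c Z ≃g GX (b := b) c Z') (j : Fin m) :
    e (.y j) = .y j := by
  have hj := j.2
  have h := dg_iso e (.y j)
  obtain ⟨r, hr, hd⟩ := dg_y hb c Z j
  rw [hd] at h
  have hw : ∀ i : Fin b, i.1 < m →
      ((GX (b := b) c Z').Adj (e (.y j)) (.v i) ↔ i.1 ≤ j.1) := by
    intro i hi
    have := e.map_adj_iff (v := .y j) (w := .v i)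
    rw [fix_v hb e i hi] at this
    rw [this]; rfl
  have h0 := (hw ⟨0, by omega⟩ (by simp; omega)).mpr (by simp)
  generalize e (.y j) = p at h hw h0
  cases p with
  | x j' =>
    obtain ⟨r', hr', hd'⟩ := dg_x (b := b) c Z' j'
    rw [hd'] at h
    cases c
    · simp [GX, R] at h0
    · simp at h; omega
  | y j' =>
    have h1 := hw ⟨j.1, by omega⟩ hj
    have h2 := hw ⟨j'.1, by have := j'.2; omega⟩ j'.2
    simp only [GX, R] at h1 h2
    have : j = j' := Fin.ext (by omega)
    rw [this]
  | w j' =>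
    rw [dg_w] at h
    omega
  | z j' =>
    rw [dg_z] at h
    cases c
    · simp at h
    · simp at h; omega
  | v j' =>
    rw [dg_v] at h
    have := j'.2
    cases c <;> simp at h <;> omega

theorem rigid_GX (hb : 3 * m + 2 ≤ b) (h : Nonempty (GX (b := b) c Z ≃g GX (b := b) c Z')) :
    Z = Z' := by
  obtain ⟨e⟩ := h
  ext ⟨i, j⟩
  have := e.map_adj_iff (v := .x i) (w := .y j)
  rw [fix_x hb, fix_y hb] at this
  exact this.symm

end rigid

/-- the first side -/
def side : Vx m b → Bool
  | .x _ => true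
  | .z _ => true
  | .v _ => true
  | .y _ => false
  | .w _ => false

lemma bip_GX (Z : Finset (Fin m × Fin m)) : (GX (b := b) false Z).Colorable 2 := by
  have C : (GX (b := b) false Z).Coloring Bool := SimpleGraph.Coloring.mk side (by
    intro p q h
    cases p <;> cases q <;> simp_all [GX, R, side])
  simpa using C.colorable

lemma clique_GX (Z : Finset (Fin m × Fin m)) :
    (GX (b := b) true Z).IsClique {u | side u = true} := by
  intro p hp q hq hne
  cases p <;> cases q <;> simp_all [GX, R, side]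

lemma indep_GX (c : Bool) (Z : Finset (Fin m × Fin m)) :
    (GX (b := b) c Z).IsIndepSet {u | side u = true}ᶜ := by
  intro p hp q hq hne h
  cases p <;> cases q <;> simp_all [GX, R, side]

/-- only the free pairs depend on `Z` -/
lemma loc_GX (c : Bool) (Z Z' : Finset (Fin m × Fin m)) (p q : Vx m b)
    (h : ∀ i j, (p = .x i ∧ q = .y j) ∨ (p = .y j ∧ q = .x i) → ((i, j) ∈ Z ↔ (i, j) ∈ Z')) :
    (GX c Z).Adj p q ↔ (GX c Z').Adj p q := by
  cases p with
  | x i =>
    cases q with
    | y j => exact h i j (Or.inl ⟨rfl, rfl⟩)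
    | _ => rfl
  | y j =>
    cases q with
    | x i => exact h i j (Or.inr ⟨rfl, rfl⟩)
    | _ => rfl
  | _ => cases q <;> rfl

end Pool.Agent.R616.OB
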